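import Mathlib

set_option autoImplicit false

namespace Pool.Agent.Lib.MP_411a76_lc

/-- The first-order language of lattices: two binary function symbols (`0` is the meet, `1` is the
join), no relation symbols. -/
abbrev latLang : FirstOrder.Language :=
  ⟨fun n => Fin (if n = 2 then 2 else 0), fun _ => Empty⟩

/-- `N` is an l-ideal: a normal subgroup that is a sublattice and is convex. -/
def IsLIdeal {G : Type} [Group G] [Lattice G] (N : Subgroup G) : Prop :=
  N.Normal ∧ (∀ a ∈ N, ∀ b ∈ N, a ⊔ b ∈ N ∧ a ⊓ b ∈ N) ∧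
    ∀ a ∈ N, ∀ b ∈ N, ∀ c, a ≤ c → c ≤ b → c ∈ N

theorem isLIdeal_sInf {G : Type} [Group G] [Lattice G] (S : Set (Subgroup G))
    (h : ∀ N ∈ S, IsLIdeal N) : IsLIdeal (sInf S) := by
  refine ⟨⟨fun a ha g => ?_⟩, fun a ha b hb => ⟨?_, ?_⟩, fun a ha b hb c h1 h2 => ?_⟩ <;>
    rw [Subgroup.mem_sInf] at *
  · exact fun N hN => (h N hN).1.conj_mem a (ha N hN) g
  · exact fun N hN => ((h N hN).2.1 a (ha N hN) b (hb N hN)).1
  · exact fun N hN => ((h N hN).2.1 a (ha N hN) b (hb N hN)).2
  · exact fun N hN => (h N hN).2.2 a (ha N hN) b (hb N hN) c h1 h2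

/-- The lattice of l-ideals of `G` as a structure for the language of lattices: the meet is the
intersection, the join is the least l-ideal containing the arguments. -/
@[reducible] def idealLattice (G : Type) [Group G] [Lattice G] :
    latLang.Structure {N : Subgroup G // IsLIdeal N} where
  funMap f x :=
    if f.val = 0 then
      ⟨sInf {K | ∃ j, K = (x j).1}, isLIdeal_sInf _ (fun _ ⟨j, hj⟩ => hj ▸ (x j).2)⟩
    else
      ⟨sInf {K | IsLIdeal K ∧ ∀ j, (x j).1 ≤ K}, isLIdeal_sInf _ (fun _ h => h.1)⟩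
  RelMap r _ := r.elim

end Pool.Agent.Lib.MP_411a76_lc
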