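import Pool.Agent.Lib.MP_411a76_lc.Defs

/-!
An abelian l-group whose lattice of l-ideals interprets, with parameters, the natural numbers
together with all binary relations on them.
-/

set_option autoImplicit false

namespace Pool.Agent.Lib.MP_411a76_lc

section Formulas
variable {M : Type} (le : M → M → Prop) (o fi u v t : M)

def Row (J : M) : Prop := le J u ∧ ¬ le J fi ∧ ∀ K, le K J → le K fi ∨ le J K

def Pt (x : M) : Prop :=
  le fi x ∧ le x v ∧ ¬ le x fi ∧ ∀ K, le fi K → le K x → le K fi ∨ le x K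

def Meet3 (a b c : M) : Prop := ∃ α, ¬ le α o ∧ le α a ∧ le α b ∧ le α c

def AA (r x y : M) : Prop :=
  Pt le fi v x ∧ Pt le fi v y ∧ ∀ J J', le J x → ¬ le J fi → le J' y → ¬ le J' fi →
    ∃ ρ, Row le fi u ρ ∧ Meet3 le o J r ρ ∧ Meet3 le o J' t ρ

end Formulas

abbrev Lam : Type := ℤ ×ₗ ℤ

def p1 (x : Lam) : ℤ := (ofLex x).1
def p2 (x : Lam) : ℤ := (ofLex x).2

lemma lam_le {x y : Lam} : x ≤ y ↔ p1 x < p1 y ∨ p1 x = p1 y ∧ p2 x ≤ p2 y := Prod.Lex.le_iff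
lemma lam_ext {x y : Lam} (h1 : p1 x = p1 y) (h2 : p2 x = p2 y) : x = y := Prod.ext h1 h2
@[simp] lemma p1_add (x y : Lam) : p1 (x + y) = p1 x + p1 y := rfl
@[simp] lemma p2_add (x y : Lam) : p2 (x + y) = p2 x + p2 y := rfl
@[simp] lemma p1_neg (x : Lam) : p1 (-x) = - p1 x := rfl
@[simp] lemma p2_neg (x : Lam) : p2 (-x) = - p2 x := rfl
@[simp] lemma p1_zero : p1 0 = 0 := rfl
@[simp] lemma p2_zero : p2 0 = 0 := rfl
@[simp] lemma p1_mk (a b : ℤ) : p1 (toLex (a, b)) = a := rfl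
@[simp] lemma p2_mk (a b : ℤ) : p2 (toLex (a, b)) = b := rfl
lemma p1_nsmul (n : ℕ) (x : Lam) : p1 (n • x) = n * p1 x := by
  induction n with
  | zero => simp
  | succ n ih => rw [succ_nsmul, p1_add, ih]; push_cast; ring
lemma p2_nsmul (n : ℕ) (x : Lam) : p2 (n • x) = n * p2 x := by
  induction n with
  | zero => simp
  | succ n ih => rw [succ_nsmul, p2_add, ih]; push_cast; ring
lemma p1_mono : Monotone p1 := Prod.Lex.monotone_fst_ofLex
lemma p1_max (x y : Lam) : p1 (x ⊔ y) = p1 x ⊔ p1 y := p1_mono.map_max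
lemma p1_min (x y : Lam) : p1 (x ⊓ y) = p1 x ⊓ p1 y := p1_mono.map_min

lemma bound1 (x y : Lam) (hy : p1 y ≠ 0) (n : ℕ) (hn : |p1 x| < n) : |x| ≤ n • |y| := by
  have h1 : 1 ≤ p1 |y| := by
    have h0 : p1 0 ≤ p1 |y| := p1_mono (abs_nonneg y)
    rcases abs_choice y with h | h <;> rw [h] at h0 ⊢ <;>
      simp only [p1_zero, p1_neg] at h0 ⊢ <;> omega
  have h2 : (n : ℤ) ≤ n * p1 |y| := by nlinarith
  have h3 : p1 |x| ≤ |p1 x| := by
    rcases abs_choice x with h | h <;> rw [h]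
    · exact le_abs_self _
    · exact neg_le_abs _
  rw [lam_le, p1_nsmul]
  left
  omega

lemma bound2 (x y : Lam) (hx : p1 x = 0) (hy : y ≠ 0) (n : ℕ) (hn : |p2 x| ≤ n) :
    |x| ≤ n • |y| := by
  have h1 : (toLex (0, 1) : Lam) ≤ |y| := by
    have h0 : (0 : Lam) < |y| := abs_pos.2 hy
    have h2 := lam_le.1 h0.le
    have h3 : ¬ (p1 |y| = 0 ∧ p2 |y| = 0) := fun h => h0.ne' (lam_ext h.1 h.2)
    rw [lam_le]
    simp only [p1_zero, p2_zero, p1_mk, p2_mk] at *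
    omega
  refine le_trans ?_ (nsmul_le_nsmul_right h1 n)
  rw [lam_le, p1_nsmul, p2_nsmul]
  right
  rcases abs_choice x with h | h <;> rw [h] <;> simp [hx]
  · exact (le_abs_self _).trans hn
  · exact (neg_le_abs _).trans hn

@[ext] structure G0 where
  F : ℕ → ℕ → Lam
  row : ∀ i j, p1 (F i j) = p1 (F i 0)
  ev : ∃ N, ∀ i, N ≤ i → F i = F N

lemma ev2 (a b : G0) : ∃ N, (∀ i, N ≤ i → a.F i = a.F N) ∧ ∀ i, N ≤ i → b.F i = b.F N := by
  obtain ⟨N, hN⟩ := a.ev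
  obtain ⟨K, hK⟩ := b.ev
  exact ⟨N + K, fun i hi => by rw [hN i (by omega), hN (N + K) (by omega)],
    fun i hi => by rw [hK i (by omega), hK (N + K) (by omega)]⟩

/-- pointwise binary operation -/
def G0.op (f : Lam → Lam → Lam) (hf : ∀ x y x' y', p1 x = p1 x' → p1 y = p1 y' →
    p1 (f x y) = p1 (f x' y')) (a b : G0) : G0 where
  F i j := f (a.F i j) (b.F i j)
  row i j := hf _ _ _ _ (a.row i j) (b.row i j)
  ev := by
    obtain ⟨N, h1, h2⟩ := ev2 a b
    exact ⟨N, fun i hi => by rw [h1 i hi, h2 i hi]⟩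

instance : Mul G0 := ⟨G0.op (· + ·) (fun _ _ _ _ h1 h2 => by simp [h1, h2])⟩
instance : One G0 := ⟨⟨fun _ _ => 0, fun _ _ => rfl, 0, fun _ _ => rfl⟩⟩
instance : Inv G0 := ⟨fun a => G0.op (fun x _ => -x) (fun _ _ _ _ h1 _ => by simp [h1]) a a⟩

@[simp] lemma mul_F (a b : G0) (i j : ℕ) : (a * b).F i j = a.F i j + b.F i j := rfl
@[simp] lemma one_F (i j : ℕ) : (1 : G0).F i j = 0 := rfl
@[simp] lemma inv_F (a : G0) (i j : ℕ) : (a⁻¹).F i j = - a.F i j := rfl

instance : Group G0 := Group.ofLeftAxioms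
  (fun a b c => by ext i j : 3; simp [add_assoc])
  (fun a => by ext i j : 3; simp)
  (fun a => by ext i j : 3; simp)

lemma pow_F (a : G0) (n i j : ℕ) : (a ^ n).F i j = n • a.F i j := by
  induction n with
  | zero => simp
  | succ n ih => rw [pow_succ, mul_F, ih, succ_nsmul]

noncomputable instance : Lattice G0 where
  __ := PartialOrder.lift G0.F (fun _ _ h => G0.ext h)
  sup := G0.op (· ⊔ ·) (fun _ _ _ _ h1 h2 => by simp only [p1_max, h1, h2])
  inf := G0.op (· ⊓ ·) (fun _ _ _ _ h1 h2 => by simp only [p1_min, h1, h2])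
  le_sup_left _ _ _ _ := le_sup_left
  le_sup_right _ _ _ _ := le_sup_right
  sup_le _ _ _ h1 h2 i j := sup_le (h1 i j) (h2 i j)
  inf_le_left _ _ _ _ := inf_le_left
  inf_le_right _ _ _ _ := inf_le_right
  le_inf _ _ _ h1 h2 i j := le_inf (h1 i j) (h2 i j)

lemma le_F {a b : G0} : a ≤ b ↔ ∀ i j, a.F i j ≤ b.F i j := Iff.rfl
@[simp] lemma sup_F (a b : G0) (i j : ℕ) : (a ⊔ b).F i j = a.F i j ⊔ b.F i j := rfl
@[simp] lemma inf_F (a b : G0) (i j : ℕ) : (a ⊓ b).F i j = a.F i j ⊓ b.F i j := rfl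

instance : MulLeftMono G0 := ⟨fun c _ _ h i j => add_le_add_right (h i j) (c.F i j)⟩
instance : MulRightMono G0 := ⟨fun c _ _ h i j => add_le_add_left (h i j) (c.F i j)⟩

abbrev Idl : Type := {N : Subgroup G0 // IsLIdeal N}

lemma mem_of_bound (J : Idl) {h : G0} (hh : h ∈ J.1) (n : ℕ) {g : G0}
    (hb : ∀ i j, |g.F i j| ≤ n • |h.F i j|) : g ∈ J.1 := by
  have k1 : (h ⊔ h⁻¹) ^ n ∈ J.1 := J.1.pow_mem (J.2.2.1 h hh _ (J.1.inv_mem hh)).1 n
  refine J.2.2.2 _ (J.1.inv_mem k1) _ k1 g (fun i j => ?_) (fun i j => ?_)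
  · rw [inv_F, pow_F]
    exact (abs_le.1 (hb i j)).1
  · rw [pow_F]
    exact (abs_le.1 (hb i j)).2

/-- the ideal of elements vanishing at prescribed points of the spectrum -/
def vanS (Z1 : ℕ → ℕ → Prop) (Z2 Z3 : ℕ → Prop) : Subgroup G0 where
  carrier := {g | (∀ i j, Z1 i j → g.F i j = 0) ∧ (∀ i, Z2 i → p1 (g.F i 0) = 0) ∧
    ∀ j, Z3 j → ∀ᶠ i in Filter.atTop, g.F i j = 0}
  one_mem' := ⟨fun _ _ _ => rfl, fun _ _ => rfl, fun _ _ => Filter.Eventually.of_forall fun _ => rfl⟩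
  mul_mem' := by
    rintro a b ⟨a1, a2, a3⟩ ⟨b1, b2, b3⟩
    refine ⟨fun i j h => by simp [a1 i j h, b1 i j h], fun i h => by simp [a2 i h, b2 i h],
      fun j h => ?_⟩
    filter_upwards [a3 j h, b3 j h] with i h1 h2
    simp [h1, h2]
  inv_mem' := by
    rintro a ⟨a1, a2, a3⟩
    refine ⟨fun i j h => by simp [a1 i j h], fun i h => by simp [a2 i h], fun j h => ?_⟩
    filter_upwards [a3 j h] with i h1
    simp [h1]

lemma mem_vanS {Z1 : ℕ → ℕ → Prop} {Z2 Z3 : ℕ → Prop} {g : G0} : g ∈ vanS Z1 Z2 Z3 ↔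
    (∀ i j, Z1 i j → g.F i j = 0) ∧ (∀ i, Z2 i → p1 (g.F i 0) = 0) ∧
    ∀ j, Z3 j → ∀ᶠ i in Filter.atTop, g.F i j = 0 := Iff.rfl

def van (Z1 : ℕ → ℕ → Prop) (Z2 Z3 : ℕ → Prop) : Idl :=
  ⟨vanS Z1 Z2 Z3, ⟨fun a ha g => by
      have : g * a * g⁻¹ = a := by ext i j : 3; simp
      rwa [this]⟩, by
    rintro a ⟨a1, a2, a3⟩ b ⟨b1, b2, b3⟩
    refine ⟨⟨fun i j h => by simp [a1 i j h, b1 i j h],
      fun i h => by simp [p1_max, a2 i h, b2 i h], fun j h => ?_⟩,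
      ⟨fun i j h => by simp [a1 i j h, b1 i j h],
      fun i h => by simp [p1_min, a2 i h, b2 i h], fun j h => ?_⟩⟩ <;>
    · filter_upwards [a3 j h, b3 j h] with i h1 h2
      simp [h1, h2], by
    rintro a ⟨a1, a2, a3⟩ b ⟨b1, b2, b3⟩ c h1 h2
    refine ⟨fun i j h => le_antisymm (b1 i j h ▸ h2 i j) (a1 i j h ▸ h1 i j),
      fun i h => le_antisymm (b2 i h ▸ p1_mono (h2 i 0)) (a2 i h ▸ p1_mono (h1 i 0)),
      fun j h => ?_⟩
    filter_upwards [a3 j h, b3 j h] with i k1 k2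
    exact le_antisymm (k2 ▸ h2 i j) (k1 ▸ h1 i j)⟩

def lei (x y : Idl) : Prop := x.1 ≤ y.1

def iO : Idl := van (fun _ _ => True) (fun _ => False) (fun _ => False)
def iF : Idl := van (fun _ _ => False) (fun _ => True) (fun _ => True)
def iU : Idl := van (fun _ _ => False) (fun _ => False) (fun _ => True)
def iV : Idl := van (fun _ _ => False) (fun _ => True) (fun _ => False)
def src (i : ℕ) : ℕ := i.unpair.1
def tgt (i : ℕ) : ℕ := i.unpair.2.unpair.1
def iT : Idl := van (fun i j => j ≠ tgt i) (fun _ => True) (fun _ => True)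
def rel (R : ℕ → ℕ → Prop) : Idl :=
  van (fun i j => ¬ (j = src i ∧ R (src i) (tgt i))) (fun _ => True) (fun _ => True)
def pt (a : ℕ) : Idl := van (fun _ _ => False) (fun _ => True) (fun j => j ≠ a)
def rho (a : ℕ) : Idl := van (fun i _ => i ≠ a) (fun _ => False) (fun _ => False)
def tail (a N : ℕ) : Idl := van (fun i j => j ≠ a ∨ i < N) (fun _ => True) (fun _ => False)

def eA (a b : ℕ) : G0 where
  F i j := if i = a ∧ j = b then toLex (0, 1) else 0
  row i j := by split_ifs <;> rfl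
  ev := ⟨a + 1, fun i hi => by funext j; rw [if_neg (by omega), if_neg (by omega)]⟩

def eR (a : ℕ) : G0 where
  F i _ := if i = a then toLex (1, 0) else 0
  row _ _ := rfl
  ev := ⟨a + 1, fun i hi => by funext j; rw [if_neg (by omega), if_neg (by omega)]⟩

def eC (b N : ℕ) : G0 where
  F i j := if N ≤ i ∧ j = b then toLex (0, 1) else 0
  row i j := by split_ifs <;> rfl
  ev := ⟨N, fun i hi => by funext j; simp [hi]⟩

/-- restriction to the rows below `N` -/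
def cut (g : G0) (N : ℕ) : G0 where
  F i j := if i < N then g.F i j else 0
  row i j := by split_ifs; exacts [g.row i j, rfl]
  ev := ⟨N, fun i hi => by funext j; rw [if_neg (by omega), if_neg (by omega)]⟩

lemma one_ne : (toLex (0, 1) : Lam) ≠ 0 := by decide

lemma ev_zero {g : G0} {N j : ℕ} (hN : ∀ i, N ≤ i → g.F i = g.F N) :
    (∀ᶠ i in Filter.atTop, g.F i j = 0) ↔ g.F N j = 0 := by
  rw [Filter.eventually_atTop]
  constructor
  · rintro ⟨K, hK⟩
    rw [← hN (N + K) (by omega)]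
    exact hK _ (by omega)
  · intro h
    exact ⟨N, fun i hi => by rw [hN i hi, h]⟩

lemma rho_le {J : Idl} {h : G0} (hh : h ∈ J.1) {a : ℕ} (ha : p1 (h.F a 0) ≠ 0) :
    lei (rho a) J := by
  intro g hg
  refine mem_of_bound J hh ((p1 (g.F a 0)).natAbs + 1) fun i j => ?_
  by_cases hi : i = a
  · subst hi
    apply bound1
    · rwa [h.row]
    · rw [g.row]; push_cast; omega
  · rw [hg.1 i j hi, abs_zero]
    exact nsmul_nonneg (abs_nonneg _) _

lemma rho_not_le (a : ℕ) : ¬ lei (rho a) iF := by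
  intro h
  have h1 : eR a ∈ (rho a).1 := ⟨fun i j hi => if_neg hi, fun _ h => h.elim, fun _ h => h.elim⟩
  have := (h h1).2.1 a trivial
  simp [eR] at this

lemma exists_row {J : Idl} (h1 : lei J iU) (h2 : ¬ lei J iF) :
    ∃ h ∈ J.1, ∃ a, p1 (h.F a 0) ≠ 0 := by
  by_contra hc
  push Not at hc
  exact h2 fun g hg => ⟨fun _ _ h => h.elim, fun i _ => hc g hg i, (h1 hg).2.2⟩

lemma rho_le_U (a : ℕ) : lei (rho a) iU := by
  intro g hg
  refine ⟨fun _ _ h => h.elim, fun _ h => h.elim, fun j _ => ?_⟩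
  filter_upwards [Filter.eventually_gt_atTop a] with i hi
  exact hg.1 i j hi.ne'

lemma row_iff (J : Idl) : Row lei iF iU J ↔ ∃ a, J = rho a := by
  constructor
  · rintro ⟨h1, h2, h3⟩
    obtain ⟨h, hh, a, ha⟩ := exists_row h1 h2
    have h4 := rho_le hh ha
    exact ⟨a, Subtype.ext (le_antisymm ((h3 _ h4).resolve_left (rho_not_le a)) h4)⟩
  · rintro ⟨a, rfl⟩
    refine ⟨rho_le_U a, rho_not_le a, fun K hK => ?_⟩
    by_cases h : lei K iF
    · exact Or.inl h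
    · obtain ⟨g, hg, b, hb⟩ := exists_row (le_trans hK (rho_le_U a)) h
      have : b = a := by
        by_contra hba
        exact hb (by rw [(hK hg).1 b 0 hba]; rfl)
      subst this
      exact Or.inr (rho_le hg hb)

lemma exists_col {J : Idl} (h1 : lei J iV) (h2 : ¬ lei J iF) :
    ∃ h ∈ J.1, ∃ b, ¬ ∀ᶠ i in Filter.atTop, h.F i b = 0 := by
  by_contra hc
  push Not at hc
  exact h2 fun g hg => ⟨fun _ _ h => h.elim, (h1 hg).2.1, fun j _ => hc g hg j⟩

lemma pt_le {J : Idl} (hF : lei iF J) {h : G0} (hh : h ∈ J.1) {b : ℕ}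
    (hb : ¬ ∀ᶠ i in Filter.atTop, h.F i b = 0) : lei (pt b) J := by
  intro g hg
  obtain ⟨N, h1, h2⟩ := ev2 g h
  rw [ev_zero h2] at hb
  have k1 : cut g N ∈ J.1 := by
    refine hF ⟨fun _ _ h => h.elim, fun i _ => ?_, fun j _ => ?_⟩
    · simp only [cut]
      split_ifs
      exacts [hg.2.1 i trivial, rfl]
    · filter_upwards [Filter.eventually_ge_atTop N] with i hi
      exact if_neg (by omega)
  have k2 : (cut g N)⁻¹ * g ∈ J.1 := by
    refine mem_of_bound J hh (p2 (g.F N b)).natAbs fun i j => ?_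
    simp only [mul_F, inv_F, cut]
    by_cases hi : i < N
    · rw [if_pos hi, neg_add_cancel, abs_zero]
      exact nsmul_nonneg (abs_nonneg _) _
    · rw [if_neg hi, neg_zero, zero_add, h1 i (by omega), h2 i (by omega)]
      by_cases hj : j = b
      · subst hj
        apply bound2 _ _ _ hb
        · simp
        · rw [g.row]; exact hg.2.1 N trivial
      · rw [(ev_zero h1).1 (hg.2.2 j hj), abs_zero]
        exact nsmul_nonneg (abs_nonneg _) _
  have := J.1.mul_mem k1 k2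
  rwa [mul_inv_cancel_left] at this

lemma eC_mem (b N : ℕ) : eC b N ∈ (tail b N).1 := by
  refine ⟨fun i j h => if_neg (by omega), fun i _ => ?_, fun _ h => h.elim⟩
  simp only [eC]
  split_ifs <;> rfl

lemma tail_le (b N : ℕ) : lei (tail b N) (pt b) := fun _ hg =>
  ⟨fun _ _ h => h.elim, hg.2.1, fun j hj =>
    Filter.Eventually.of_forall fun i => hg.1 i j (Or.inl hj)⟩

lemma eC_not (b N : ℕ) : ¬ ∀ᶠ i in Filter.atTop, (eC b N).F i b = 0 := by
  rw [Filter.eventually_atTop]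
  rintro ⟨K, hK⟩
  have := hK (N + K) (by omega)
  simp only [eC] at this
  rw [if_pos (by simp)] at this
  exact one_ne this

lemma tail_not_le (b N : ℕ) : ¬ lei (tail b N) iF :=
  fun h => eC_not b N ((h (eC_mem b N)).2.2 b trivial)

lemma pt_le_V (b : ℕ) : lei (pt b) iV := fun _ hg => ⟨hg.1, hg.2.1, fun _ h => h.elim⟩

lemma pt_not_le (b : ℕ) : ¬ lei (pt b) iF := fun h => tail_not_le b 0 (le_trans (tail_le b 0) h)

lemma col_eq {J : Idl} {b c : ℕ} (hJ : lei J (pt b)) {h : G0} (hh : h ∈ J.1)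
    (hc : ¬ ∀ᶠ i in Filter.atTop, h.F i c = 0) : c = b := by
  by_contra hne
  exact hc ((hJ hh).2.2 c hne)

lemma pt_iff (x : Idl) : Pt lei iF iV x ↔ ∃ b, x = pt b := by
  constructor
  · rintro ⟨h0, h1, h2, h3⟩
    obtain ⟨h, hh, b, hb⟩ := exists_col h1 h2
    have h4 := pt_le h0 hh hb
    have h5 : lei iF (pt b) := fun g hg => ⟨hg.1, hg.2.1, fun j _ => hg.2.2 j trivial⟩
    exact ⟨b, Subtype.ext (le_antisymm ((h3 _ h5 h4).resolve_left (pt_not_le b)) h4)⟩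
  · rintro ⟨b, rfl⟩
    refine ⟨fun g hg => ⟨hg.1, hg.2.1, fun j _ => hg.2.2 j trivial⟩, pt_le_V b, pt_not_le b,
      fun K hF hK => ?_⟩
    by_cases h : lei K iF
    · exact Or.inl h
    · obtain ⟨g, hg, c, hc⟩ := exists_col (le_trans hK (pt_le_V b)) h
      obtain rfl := col_eq hK hg hc
      exact Or.inr (pt_le hF hg hc)

lemma pt_inj : Function.Injective pt := by
  intro a b h
  exact col_eq (J := pt a) (h ▸ le_rfl) (tail_le a 0 (eC_mem a 0)) (eC_not a 0)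

lemma atoms_in {J : Idl} {b : ℕ} (h1 : lei J (pt b)) (h2 : ¬ lei J iF) :
    ∃ N, ∀ i, N ≤ i → eA i b ∈ J.1 := by
  obtain ⟨g, hg, c, hc⟩ := exists_col (le_trans h1 (pt_le_V b)) h2
  obtain rfl := col_eq h1 hg hc
  obtain ⟨N, hN⟩ := g.ev
  rw [ev_zero hN] at hc
  refine ⟨N, fun i hi => mem_of_bound J hg 1 fun i' j => ?_⟩
  simp only [eA]
  split_ifs with h
  · obtain ⟨rfl, rfl⟩ := h
    apply bound2
    · rfl
    · rwa [hN _ hi]
    · simp
  · rw [abs_zero]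
    exact nsmul_nonneg (abs_nonneg _) _

lemma meet3_iff (a b c : Idl) :
    Meet3 lei iO a b c ↔ ∃ g i j, g ∈ a.1 ∧ g ∈ b.1 ∧ g ∈ c.1 ∧ G0.F g i j ≠ 0 := by
  constructor
  · rintro ⟨α, h0, h1, h2, h3⟩
    by_contra hc
    push Not at hc
    exact h0 fun g hg => ⟨fun i j _ => hc g i j (h1 hg) (h2 hg) (h3 hg), fun _ h => h.elim,
      fun _ h => h.elim⟩
  · rintro ⟨g, i, j, h1, h2, h3, h4⟩
    refine ⟨⟨sInf {a.1, b.1, c.1}, isLIdeal_sInf _ ?_⟩, fun h => h4 ((h ?_).1 i j trivial),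
      sInf_le (by simp), sInf_le (by simp), sInf_le (by simp)⟩
    · rintro N (rfl | rfl | rfl)
      exacts [a.2, b.2, c.2]
    · simp [h1, h2, h3]

lemma eA_mem_van {Z1 : ℕ → ℕ → Prop} {Z2 Z3 : ℕ → Prop} {a b : ℕ} (h : ¬ Z1 a b) :
    eA a b ∈ (van Z1 Z2 Z3).1 := by
  refine ⟨fun i j hij => if_neg ?_, fun i _ => ?_, fun j _ => ?_⟩
  · rintro ⟨rfl, rfl⟩
    exact h hij
  · simp only [eA]
    split_ifs <;> rfl
  · filter_upwards [Filter.eventually_gt_atTop a] with i hi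
    exact if_neg (by omega)

theorem AA_iff (R : ℕ → ℕ → Prop) (x y : Idl) :
    AA lei iO iF iU iV iT (rel R) x y ↔ ∃ a b, R a b ∧ x = pt a ∧ y = pt b := by
  simp only [AA, pt_iff, row_iff, meet3_iff]
  constructor
  · rintro ⟨⟨a, rfl⟩, ⟨b, rfl⟩, h⟩
    obtain ⟨_, ⟨c, rfl⟩, ⟨g, i, j, g1, g2, g3, g4⟩, ⟨g', i', j', k1, k2, k3, k4⟩⟩ :=
      h _ _ (tail_le a 0) (tail_not_le a 0) (tail_le b 0) (tail_not_le b 0)
    have e1 : i = c := by by_contra hc; exact g4 (g3.1 i j hc)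
    have e2 : i' = c := by by_contra hc; exact k4 (k3.1 i' j' hc)
    have e3 : j = a := by by_contra hc; exact g4 (g1.1 i j (Or.inl hc))
    have e4 : j' = b := by by_contra hc; exact k4 (k1.1 i' j' (Or.inl hc))
    have e5 : j = src i ∧ R (src i) (tgt i) := by by_contra hc; exact g4 (g2.1 i j hc)
    have e6 : j' = tgt i' := by by_contra hc; exact k4 (k2.1 i' j' hc)
    refine ⟨a, b, ?_, rfl, rfl⟩
    rw [← e3, e5.1, ← e4, e6, e2, ← e1]
    exact e5.2
  · rintro ⟨a, b, hR, rfl, rfl⟩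
    refine ⟨⟨a, rfl⟩, ⟨b, rfl⟩, fun J J' h1 h2 h3 h4 => ?_⟩
    obtain ⟨N, hN⟩ := atoms_in h1 h2
    obtain ⟨K, hK⟩ := atoms_in h3 h4
    have hi : N + K ≤ Nat.pair a (Nat.pair b (N + K)) :=
      (Nat.right_le_pair _ _).trans (Nat.right_le_pair _ _)
    set i := Nat.pair a (Nat.pair b (N + K)) with hi'
    have s1 : src i = a := by simp [src, hi']
    have s2 : tgt i = b := by simp [tgt, hi']
    refine ⟨_, ⟨i, rfl⟩, ⟨eA i a, i, a, hN i (by omega), eA_mem_van (by simp [s1, s2, hR]),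
      eA_mem_van (by simp), ?_⟩, ⟨eA i b, i, b, hK i (by omega), eA_mem_van (by simp [s2]),
      eA_mem_van (by simp), ?_⟩⟩ <;>
    · simp only [eA, and_self, if_true]
      exact one_ne

end Pool.Agent.Lib.MP_411a76_lc
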