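import Mathlib

/-!
Horn axioms for the graph of a partial recursive code in a structure with a ternary relation
`A r x y` (the pair `(x, y)` belongs to the relation coded by `r`).
-/

set_option autoImplicit false
open Nat.Partrec (Code)
open Nat.Partrec.Code

namespace Pool.Agent.Lib.MP_411a76_lc

section
variable {M : Type} (A : M → M → M → Prop) (z s f g l : M)

/-- `x` is a number -/
def Num (x : M) : Prop := ∃ y, A s x y

/-- `w` is the pair of `a` and `b` -/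
def Pr (w a b : M) : Prop := A f w a ∧ A g w b

def Base : Prop :=
  Num A s z ∧ (∀ x y, A s x y → Num A s y) ∧ (∀ x y, A s x y → A l x y) ∧
  (∀ x y y', A l x y → A s y y' → A l x y') ∧ Pr A f g z z z ∧
  (∀ n n' a a' b, Pr A f g n a b → A s n n' → A s a a' → A l a' b → Pr A f g n' a' b) ∧
  (∀ n n' a b, Pr A f g n a b → A s n n' → A s a b → Pr A f g n' b z) ∧
  (∀ n n' a b b', Pr A f g n a b → A s n n' → A s b b' → A l b a → Pr A f g n' a b') ∧
  (∀ n n' a a', Pr A f g n a a → A s n n' → A s a a' → Pr A f g n' z a')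

def Good : Code → M → Prop
  | .zero, r => ∀ x, Num A s x → A r x z
  | .succ, r => ∀ x y, A s x y → A r x y
  | .left, r => ∀ x y, A f x y → A r x y
  | .right, r => ∀ x y, A g x y → A r x y
  | .pair c1 c2, r => ∃ r1 r2, Good c1 r1 ∧ Good c2 r2 ∧
      ∀ n a b w, A r1 n a → A r2 n b → Pr A f g w a b → A r n w
  | .comp c1 c2, r => ∃ r1 r2, Good c1 r1 ∧ Good c2 r2 ∧
      ∀ n a b, A r2 n a → A r1 a b → A r n b
  | .prec c1 c2, r => ∃ r1 r2, Good c1 r1 ∧ Good c2 r2 ∧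
      (∀ a b w, A r1 a b → Pr A f g w a z → A r w b) ∧
      ∀ a y y' i b w w' u v, Pr A f g w a y → A r w i → Pr A f g u y i → Pr A f g v a u →
        A r2 v b → A s y y' → Pr A f g w' a y' → A r w' b
  | .rfind' c1, r => ∃ r1, Good c1 r1 ∧
      (∀ a m w, Pr A f g w a m → A r1 w z → A r w m) ∧
      ∀ a m m' w w' k k' b, Pr A f g w a m → A r1 w k' → A s k k' → A s m m' →
        Pr A f g w' a m' → A r w' b → A r w b

end

theorem mem_eval_pair {c1 c2 : Code} {n w : ℕ} :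
    w ∈ eval (.pair c1 c2) n ↔ ∃ a ∈ eval c1 n, ∃ b ∈ eval c2 n, Nat.pair a b = w := by
  simp [eval, Seq.seq]

theorem mem_eval_comp {c1 c2 : Code} {n w : ℕ} :
    w ∈ eval (.comp c1 c2) n ↔ ∃ a ∈ eval c2 n, w ∈ eval c1 a := by
  simp [eval]

theorem mem_eval_prec_succ {c1 c2 : Code} {a y w : ℕ} :
    w ∈ eval (.prec c1 c2) (Nat.pair a (y + 1)) ↔
      ∃ i ∈ eval (.prec c1 c2) (Nat.pair a y), w ∈ eval c2 (Nat.pair a (Nat.pair y i)) := by
  rw [eval_prec_succ]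
  simp

theorem mem_eval_rfind {c : Code} {a m b : ℕ} :
    b ∈ eval (.rfind' c) (Nat.pair a m) ↔ ∃ t, b = t + m ∧ 0 ∈ eval c (Nat.pair a (t + m)) ∧
      ∀ u < t, ∃ k, k + 1 ∈ eval c (Nat.pair a (u + m)) := by
  simp only [eval, Nat.unpaired, Nat.unpair_pair, Part.mem_map_iff, Nat.mem_rfind,
    Part.map_eq_map]
  constructor
  · rintro ⟨t, ⟨⟨x, hx, e⟩, h2⟩, rfl⟩
    refine ⟨t, rfl, ?_, fun u hu => ?_⟩
    · have : x = 0 := by simpa using e
      rwa [this] at hx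
    · obtain ⟨y, hy, e⟩ := h2 hu
      have : y ≠ 0 := by simpa using e
      obtain ⟨k, rfl⟩ := Nat.exists_eq_succ_of_ne_zero this
      exact ⟨k, hy⟩
  · rintro ⟨t, rfl, h1, h2⟩
    refine ⟨t, ⟨⟨0, h1, by simp⟩, fun {u} hu => ?_⟩, rfl⟩
    obtain ⟨k, hk⟩ := h2 u hu
    exact ⟨k + 1, hk, by simp⟩

section Sound
variable {M : Type} {A : M → M → M → Prop} {z s f g l : M} {ι : ℕ → M}

theorem lt_sound (hB : Base A z s f g l) (hs : ∀ n, A s (ι n) (ι (n + 1))) {a b : ℕ} (h : a < b) :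
    A l (ι a) (ι b) := by
  induction h with
  | refl => exact hB.2.2.1 _ _ (hs a)
  | step _ ih => exact hB.2.2.2.1 _ _ _ ih (hs _)

theorem pr_sound (hB : Base A z s f g l) (h0 : ι 0 = z) (hs : ∀ n, A s (ι n) (ι (n + 1)))
    (a b : ℕ) : Pr A f g (ι (Nat.pair a b)) (ι a) (ι b) := by
  suffices h : ∀ n, ∃ a b, Nat.pair a b = n ∧ Pr A f g (ι n) (ι a) (ι b) by
    obtain ⟨a', b', e, h⟩ := h (Nat.pair a b)
    rw [Nat.pair_eq_pair] at e
    rw [← e.1, ← e.2] at *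
    exact h
  obtain ⟨-, -, -, -, b0, b1, b2, b3, b4⟩ := id hB
  intro n
  induction n with
  | zero => exact ⟨0, 0, rfl, by rw [h0]; exact b0⟩
  | succ n ih =>
    obtain ⟨a, b, e, h⟩ := ih
    rcases lt_trichotomy a b with hab | hab | hab
    · rcases Nat.lt_or_eq_of_le (Nat.succ_le_of_lt hab) with h1 | h1
      · refine ⟨a + 1, b, ?_, b1 _ _ _ _ _ h (hs n) (hs a) (lt_sound hB hs h1)⟩
        rw [← e, Nat.pair, Nat.pair, if_pos hab, if_pos h1]
        ring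
      · subst h1
        refine ⟨a + 1, 0, ?_, ?_⟩
        · rw [← e, Nat.pair, Nat.pair, if_pos hab, if_neg (by omega)]
          simp only [Nat.succ_eq_add_one]
          ring
        · rw [h0]
          exact b2 _ _ _ _ h (hs n) (hs a)
    · subst hab
      refine ⟨0, a + 1, ?_, ?_⟩
      · rw [← e, Nat.pair, Nat.pair, if_pos (by omega), if_neg (by omega)]
        ring
      · rw [h0]
        exact b4 _ _ _ _ h (hs n) (hs a)
    · refine ⟨a, b + 1, ?_, b3 _ _ _ _ _ h (hs n) (hs b) (lt_sound hB hs hab)⟩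
      rw [← e, Nat.pair, Nat.pair, if_neg (by omega), if_neg (by omega)]
      ring

theorem good_sound (hB : Base A z s f g l) (h0 : ι 0 = z) (hs : ∀ n, A s (ι n) (ι (n + 1)))
    (c : Code) (r : M) (hr : Good A z s f g c r) (n m : ℕ) (h : m ∈ eval c n) :
    A r (ι n) (ι m) := by
  have hp := pr_sound hB h0 hs
  induction c generalizing r n m with
  | zero =>
    have : m = 0 := Part.mem_some_iff.1 h
    rw [this, h0]
    exact hr _ ⟨_, hs n⟩
  | succ =>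
    have : m = n + 1 := by simpa [eval] using h
    rw [this]
    exact hr _ _ (hs n)
  | left =>
    have : m = n.unpair.1 := by simpa [eval] using h
    have h2 := (hp n.unpair.1 n.unpair.2).1
    rw [Nat.pair_unpair] at h2
    rw [this]
    exact hr _ _ h2
  | right =>
    have : m = n.unpair.2 := by simpa [eval] using h
    have h2 := (hp n.unpair.1 n.unpair.2).2
    rw [Nat.pair_unpair] at h2
    rw [this]
    exact hr _ _ h2
  | pair c1 c2 ih1 ih2 =>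
    obtain ⟨r1, r2, g1, g2, hr⟩ := hr
    obtain ⟨a, ha, b, hb, rfl⟩ := mem_eval_pair.1 h
    exact hr _ _ _ _ (ih1 r1 g1 _ _ ha) (ih2 r2 g2 _ _ hb) (hp a b)
  | comp c1 c2 ih1 ih2 =>
    obtain ⟨r1, r2, g1, g2, hr⟩ := hr
    obtain ⟨a, ha, hb⟩ := mem_eval_comp.1 h
    exact hr _ _ _ (ih2 r2 g2 _ _ ha) (ih1 r1 g1 _ _ hb)
  | prec c1 c2 ih1 ih2 =>
    obtain ⟨r1, r2, g1, g2, k1, k2⟩ := hr
    rw [← Nat.pair_unpair n] at h ⊢
    generalize n.unpair.1 = a at *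
    generalize n.unpair.2 = y at *
    induction y generalizing m with
    | zero =>
      rw [eval_prec_zero] at h
      exact k1 _ _ _ (ih1 r1 g1 _ _ h) (h0 ▸ hp a 0)
    | succ y ih =>
      obtain ⟨i, hi, hb⟩ := mem_eval_prec_succ.1 h
      exact k2 _ _ _ _ _ _ _ _ _ (hp a y) (ih i hi) (hp y i) (hp a _) (ih2 r2 g2 _ _ hb) (hs y)
        (hp a (y + 1))
  | rfind' c1 ih1 =>
    obtain ⟨r1, g1, k1, k2⟩ := hr
    rw [← Nat.pair_unpair n] at h ⊢
    generalize n.unpair.1 = a at *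
    generalize n.unpair.2 = y at *
    obtain ⟨t, rfl, h1, h2⟩ := mem_eval_rfind.1 h
    clear h
    induction t generalizing y with
    | zero =>
      rw [Nat.zero_add] at *
      exact k1 _ _ _ (hp a y) (h0 ▸ ih1 r1 g1 _ _ h1)
    | succ t ih =>
      obtain ⟨k, hk⟩ := h2 0 (by omega)
      rw [Nat.zero_add] at hk
      have e : t + 1 + y = t + (y + 1) := by omega
      rw [e] at h1 ⊢
      refine k2 _ _ _ _ _ _ _ _ (hp a y) (ih1 r1 g1 _ _ hk) (hs k) (hs y) (hp a (y + 1))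
        (ih (y + 1) h1 fun u hu => ?_)
      have := h2 (u + 1) (by omega)
      rwa [show u + 1 + y = u + (y + 1) by omega] at this

end Sound

section Complete
variable {M : Type} {A : M → M → M → Prop} {pt : ℕ → M} {rel : (ℕ → ℕ → Prop) → M}

theorem base_complete (hpt : Function.Injective pt)
    (hA : ∀ R x y, A (rel R) x y ↔ ∃ a b, R a b ∧ x = pt a ∧ y = pt b) :
    Base A (pt 0) (rel fun a b => b = a + 1) (rel fun a b => b = a.unpair.1)
      (rel fun a b => b = a.unpair.2) (rel fun a b => a < b) := by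
  have hP : ∀ w x y, Pr A (rel fun a b => b = a.unpair.1) (rel fun a b => b = a.unpair.2) w x y ↔
      ∃ a b, w = pt (Nat.pair a b) ∧ x = pt a ∧ y = pt b := by
    intro w x y
    simp only [Pr, hA]
    constructor
    · rintro ⟨⟨a, _, rfl, rfl, rfl⟩, ⟨a', _, rfl, e, rfl⟩⟩
      rw [← hpt e]
      exact ⟨_, _, by rw [Nat.pair_unpair], rfl, rfl⟩
    · rintro ⟨a, b, rfl, rfl, rfl⟩
      exact ⟨⟨_, _, by simp, rfl, rfl⟩, ⟨_, _, by simp, rfl, rfl⟩⟩
  simp only [Base, hP, Num, hA]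
  refine ⟨⟨_, 0, 1, rfl, rfl, rfl⟩, ?_, ?_, ?_, ⟨0, 0, rfl, rfl, rfl⟩, ?_, ?_, ?_, ?_⟩
  · rintro _ _ ⟨a, _, rfl, rfl, rfl⟩
    exact ⟨_, _, _, rfl, rfl, rfl⟩
  · rintro _ _ ⟨a, _, rfl, rfl, rfl⟩
    exact ⟨_, _, by omega, rfl, rfl⟩
  · rintro _ _ _ ⟨a, b, h, rfl, rfl⟩ ⟨b', _, rfl, e, rfl⟩
    obtain rfl := hpt e
    exact ⟨_, _, by omega, rfl, rfl⟩
  · rintro _ _ _ _ _ ⟨a, b, rfl, rfl, rfl⟩ ⟨n, _, rfl, e1, rfl⟩ ⟨a', _, rfl, e2, rfl⟩
      ⟨a'', b'', h, e3, e4⟩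
    obtain rfl := hpt e1
    obtain rfl := hpt e2
    obtain rfl := hpt e3
    obtain rfl := hpt e4
    refine ⟨_, _, congrArg pt ?_, rfl, rfl⟩
    rw [Nat.pair, Nat.pair, if_pos (by omega), if_pos h]
    ring
  · rintro _ _ _ _ ⟨a, b, rfl, rfl, rfl⟩ ⟨n, _, rfl, e1, rfl⟩ ⟨a', _, rfl, e2, e3⟩
    obtain rfl := hpt e1
    obtain rfl := hpt e2
    obtain rfl := hpt e3
    refine ⟨_, _, congrArg pt ?_, rfl, rfl⟩
    rw [Nat.pair, Nat.pair, if_pos (by omega), if_neg (by omega)]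
    ring
  · rintro _ _ _ _ _ ⟨a, b, rfl, rfl, rfl⟩ ⟨n, _, rfl, e1, rfl⟩ ⟨a', _, rfl, e2, rfl⟩
      ⟨a'', b'', h, e3, e4⟩
    obtain rfl := hpt e1
    obtain rfl := hpt e2
    obtain rfl := hpt e3
    obtain rfl := hpt e4
    refine ⟨_, _, congrArg pt ?_, rfl, rfl⟩
    rw [Nat.pair, Nat.pair, if_neg (by omega), if_neg (by omega)]
    ring
  · rintro _ _ _ _ ⟨a, b, rfl, rfl, e0⟩ ⟨n, _, rfl, e1, rfl⟩ ⟨a', _, rfl, e2, rfl⟩
    obtain rfl := hpt e0
    obtain rfl := hpt e1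
    obtain rfl := hpt e2
    refine ⟨_, _, congrArg pt ?_, rfl, rfl⟩
    rw [Nat.pair, Nat.pair, if_neg (by omega), if_pos (by omega)]
    ring

theorem good_complete (hpt : Function.Injective pt)
    (hA : ∀ R x y, A (rel R) x y ↔ ∃ a b, R a b ∧ x = pt a ∧ y = pt b) (c : Code) :
    Good A (pt 0) (rel fun a b => b = a + 1) (rel fun a b => b = a.unpair.1)
      (rel fun a b => b = a.unpair.2) c (rel fun a b => b ∈ eval c a) := by
  have hP : ∀ w x y, Pr A (rel fun a b => b = a.unpair.1) (rel fun a b => b = a.unpair.2) w x y ↔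
      ∃ a b, w = pt (Nat.pair a b) ∧ x = pt a ∧ y = pt b := by
    intro w x y
    simp only [Pr, hA]
    constructor
    · rintro ⟨⟨a, _, rfl, rfl, rfl⟩, ⟨a', _, rfl, e, rfl⟩⟩
      rw [← hpt e]
      exact ⟨_, _, by rw [Nat.pair_unpair], rfl, rfl⟩
    · rintro ⟨a, b, rfl, rfl, rfl⟩
      exact ⟨⟨_, _, by simp, rfl, rfl⟩, ⟨_, _, by simp, rfl, rfl⟩⟩
  induction c with
  | zero =>
    simp only [Good, Num, hA]
    rintro _ ⟨_, a, _, rfl, rfl, rfl⟩
    exact ⟨_, _, Part.mem_some 0, rfl, rfl⟩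
  | succ =>
    simp only [Good, hA]
    rintro _ _ ⟨a, _, rfl, rfl, rfl⟩
    exact ⟨_, _, by simp [eval], rfl, rfl⟩
  | left =>
    simp only [Good, hA]
    rintro _ _ ⟨a, _, rfl, rfl, rfl⟩
    exact ⟨_, _, by simp [eval], rfl, rfl⟩
  | right =>
    simp only [Good, hA]
    rintro _ _ ⟨a, _, rfl, rfl, rfl⟩
    exact ⟨_, _, by simp [eval], rfl, rfl⟩
  | pair c1 c2 ih1 ih2 =>
    refine ⟨_, _, ih1, ih2, ?_⟩
    simp only [hP, hA]
    rintro _ _ _ _ ⟨n, a, h1, rfl, rfl⟩ ⟨n', b, h2, e1, rfl⟩ ⟨a', b', rfl, e2, e3⟩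
    obtain rfl := hpt e1
    obtain rfl := hpt e2
    obtain rfl := hpt e3
    exact ⟨_, _, mem_eval_pair.2 ⟨_, h1, _, h2, rfl⟩, rfl, rfl⟩
  | comp c1 c2 ih1 ih2 =>
    refine ⟨_, _, ih1, ih2, ?_⟩
    simp only [hA]
    rintro _ _ _ ⟨n, a, h1, rfl, rfl⟩ ⟨a', b, h2, e1, rfl⟩
    obtain rfl := hpt e1
    exact ⟨_, _, mem_eval_comp.2 ⟨_, h1, h2⟩, rfl, rfl⟩
  | prec c1 c2 ih1 ih2 =>
    refine ⟨_, _, ih1, ih2, ?_, ?_⟩
    · simp only [hP, hA]
      rintro _ _ _ ⟨a, b, h1, rfl, rfl⟩ ⟨a', b', rfl, e2, e3⟩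
      obtain rfl := hpt e2
      obtain rfl := hpt e3
      exact ⟨_, _, by rwa [eval_prec_zero], rfl, rfl⟩
    · simp only [hP, hA]
      rintro _ _ _ _ _ _ _ _ _ ⟨a, y, rfl, rfl, rfl⟩ ⟨w, i, h1, e1, rfl⟩ ⟨y', i', rfl, e2, e3⟩
        ⟨a', u, rfl, e4, e5⟩ ⟨v, b, h2, e6, rfl⟩ ⟨y'', _, rfl, e7, rfl⟩ ⟨a'', y3, rfl, e8, e9⟩
      obtain rfl := hpt e1
      obtain rfl := hpt e2
      obtain rfl := hpt e3
      obtain rfl := hpt e4
      obtain rfl := hpt e5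
      obtain rfl := hpt e6
      obtain rfl := hpt e7
      obtain rfl := hpt e8
      obtain rfl := hpt e9
      exact ⟨_, _, mem_eval_prec_succ.2 ⟨_, h1, h2⟩, rfl, rfl⟩
  | rfind' c1 ih1 =>
    refine ⟨_, ih1, ?_, ?_⟩
    · simp only [hP, hA]
      rintro _ _ _ ⟨a, m, rfl, rfl, rfl⟩ ⟨w, k, h1, e1, e2⟩
      obtain rfl := hpt e1
      obtain rfl := hpt e2
      exact ⟨_, _, mem_eval_rfind.2 ⟨0, by simp, by simpa using h1, by simp⟩, rfl, rfl⟩
    · simp only [hP, hA]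
      rintro _ _ _ _ _ _ _ _ ⟨a, m, rfl, rfl, rfl⟩ ⟨w, k', h1, e1, rfl⟩ ⟨k, _, rfl, rfl, e2⟩
        ⟨m', _, rfl, e3, rfl⟩ ⟨a', m'', rfl, e4, e5⟩ ⟨w', b, h2, e6, rfl⟩
      obtain rfl := hpt e1
      obtain rfl := hpt e2
      obtain rfl := hpt e3
      obtain rfl := hpt e4
      obtain rfl := hpt e5
      obtain rfl := hpt e6
      obtain ⟨t, rfl, k1, k2⟩ := mem_eval_rfind.1 h2
      refine ⟨_, _, mem_eval_rfind.2 ⟨t + 1, by omega, ?_, ?_⟩, rfl, rfl⟩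
      · rwa [show t + 1 + m = t + (m + 1) by omega]
      · rintro (_ | u) hu
        · exact ⟨k, by simpa using h1⟩
        · have := k2 u (by omega)
          rwa [show u + 1 + m = u + (m + 1) by omega]

end Complete

end Pool.Agent.Lib.MP_411a76_lc
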