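import Pool.Agent.Lib.MP_411a76_lc.Raw
import Pool.Agent.Lib.MP_411a76_lc.Horn
import Pool.Agent.Lib.MP_411a76_lc.Grp

set_option autoImplicit false
open FirstOrder FirstOrder.Language Encodable
open Nat.Partrec (Code)
open Nat.Partrec.Code

namespace Pool.Agent.Lib.MP_411a76_lc

theorem ud_AA (o fi u v t r x y : ℕ) :
    UD (fun _ le w => AA le (w o) (w fi) (w u) (w v) (w t) (w r) (w x) (w y)) := by
  unfold AA Pt Row Meet3
  repeat' first
    | exact UD.le _ _
    | apply UD.and
    | apply UD.or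
    | apply UD.not
    | apply UD.imp
    | apply UD.all
    | apply UD.ex

theorem ud_base (o fi u v t z s f g l : ℕ) :
    UD (fun _ le w => Base (AA le (w o) (w fi) (w u) (w v) (w t)) (w z) (w s) (w f) (w g) (w l)) := by
  unfold Base Num Pr
  repeat' first
    | exact ud_AA _ _ _ _ _ _ _ _
    | apply UD.and
    | apply UD.imp
    | apply UD.all
    | apply UD.ex

theorem ud_good (c : Code) (o fi u v t z s f g r : ℕ) :
    UD (fun _ le w =>
      Good (AA le (w o) (w fi) (w u) (w v) (w t)) (w z) (w s) (w f) (w g) c (w r)) := by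
  induction c generalizing o fi u v t z s f g r with
  | zero | succ | left | right =>
    simp only [Good, Num]
    repeat' first
      | exact ud_AA _ _ _ _ _ _ _ _
      | apply UD.and
      | apply UD.imp
      | apply UD.all
      | apply UD.ex
  | pair c1 c2 ih1 ih2 | comp c1 c2 ih1 ih2 | prec c1 c2 ih1 ih2 =>
    simp only [Good, Pr]
    repeat' first
      | exact ud_AA _ _ _ _ _ _ _ _
      | exact ih1 _ _ _ _ _ _ _ _ _ _
      | exact ih2 _ _ _ _ _ _ _ _ _ _
      | apply UD.and
      | apply UD.imp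
      | apply UD.all
      | apply UD.ex
  | rfind' c1 ih1 =>
    simp only [Good, Pr]
    repeat' first
      | exact ud_AA _ _ _ _ _ _ _ _
      | exact ih1 _ _ _ _ _ _ _ _ _ _
      | apply UD.and
      | apply UD.imp
      | apply UD.all
      | apply UD.ex

theorem chain_sound {M : Type} {S : M → M → Prop} {H : M → Prop}
    (hS : ∀ x y, S x y → ∃ y', S y y') (n : ℕ) (z : M) (hz : ∃ y, S z y)
    (h : ∀ ι : ℕ → M, ι 0 = z → (∀ k, S (ι k) (ι (k + 1))) → H (ι n)) : chainP S H n z := by
  induction n generalizing z with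
  | zero =>
    have hS' : ∀ x : {x // ∃ y, S x y}, ∃ y : {x // ∃ y, S x y}, S x.1 y.1 := by
      rintro ⟨x, y, hy⟩
      exact ⟨⟨y, hS x y hy⟩, hy⟩
    choose nx hnx using hS'
    refine h (fun k => (nx^[k] ⟨z, hz⟩).1) rfl fun k => ?_
    rw [Function.iterate_succ_apply']
    exact hnx _
  | succ n ih =>
    intro y hy
    refine ih y (hS z y hy) fun ι h0 hι => h (cons z ι) rfl ?_
    rintro (_ | k)
    · simpa [cons, h0] using hy
    · exact hι k

theorem chain_complete {M : Type} {S : M → M → Prop} {H : M → Prop} (ι : ℕ → M)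
    (hι : ∀ k, S (ι k) (ι (k + 1))) (n k : ℕ) (h : chainP S H n (ι k)) : H (ι (k + n)) := by
  induction n generalizing k with
  | zero => exact h
  | succ n ih =>
    have := ih (k + 1) (h _ (hι k))
    rwa [show k + 1 + n = k + (n + 1) by omega] at this

theorem mle_idl (G : Type) [Group G] [Lattice G] (x y : {N : Subgroup G // IsLIdeal N}) :
    @mle _ (idealLattice G) x y ↔ x.1 ≤ y.1 := by
  have e : {K : Subgroup G | ∃ j : Fin 2, K = ((![x, y] : Fin 2 → _) j).1} = {x.1, y.1} := by
    ext K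
    simp [Fin.exists_fin_two]
  unfold mle
  rw [Subtype.ext_iff]
  change sInf {K : Subgroup G | ∃ j : Fin 2, K = ((![x, y] : Fin 2 → _) j).1} = x.1 ↔ _
  rw [e, sInf_pair, inf_eq_left]

theorem exists_sentences (c : Code) : ∃ σ : ℕ → latLang.Sentence,
    (Primrec fun n => encode (BoundedFormula.listEncode (σ n))) ∧
    (∀ n, (eval c n).Dom → ∀ (M : Type) [latLang.Structure M], M ⊨ σ n) ∧
    (∀ n, @Sentence.Realize latLang Idl (idealLattice G0) (σ n) → (eval c n).Dom) := by
  obtain ⟨φB, hB⟩ := (ud_base 1 2 3 4 5 0 6 7 8 9).and (ud_good c 1 2 3 4 5 0 6 7 8 10)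
  obtain ⟨φA, hA⟩ := ud_AA 2 3 4 5 6 7 1 0
  obtain ⟨φH, hH⟩ := UD.ex (Q := fun _ le y w =>
    AA le (w 1) (w 2) (w 3) (w 4) (w 5) (w 10) (w 0) y) (ud_AA 2 3 4 5 6 11 1 0)
  refine ⟨sent φB φA φH, primrec_sent φB φA φH, fun n hn M _ => ?_, fun n hn => ?_⟩
  · rw [realize_sent]
    intro xs
    simp only [hB, hA, hH, cons]
    rintro ⟨h1, h2⟩
    refine chain_sound h1.2.1 n _ h1.1 fun ι h0 hι => ?_
    exact ⟨_, good_sound h1 h0 hι c _ h2 n _ (Part.get_mem hn)⟩
  · let := idealLattice G0
    have e : mle Idl = lei := by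
      funext x y
      exact propext (mle_idl G0 x y)
    rw [realize_sent] at hn
    have h := hn ![rel fun a b => b ∈ eval c a, rel fun a b => a < b,
      rel fun a b => b = a.unpair.2, rel fun a b => b = a.unpair.1, rel fun a b => b = a + 1,
      iT, iV, iU, iF, iO, pt 0]
    simp only [hB, hA, hH, cons, e] at h
    have h2 := h ⟨base_complete pt_inj AA_iff, good_complete pt_inj AA_iff c⟩
    obtain ⟨y, hy⟩ := chain_complete pt
      (fun k => (AA_iff (fun a b => b = a + 1) _ _).2 ⟨k, k + 1, rfl, rfl, rfl⟩) n 0 h2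
    obtain ⟨a, b, hab, e1, -⟩ := (AA_iff (fun a b => b ∈ eval c a) _ _).1 hy
    rw [Nat.zero_add] at e1
    obtain rfl := pt_inj e1
    exact Part.dom_iff_mem.2 ⟨b, hab⟩

theorem undecidable (T : latLang.Sentence → Prop)
    (h1 : ∀ σ : latLang.Sentence, (∀ (M : Type) [latLang.Structure M], M ⊨ σ) → T σ)
    (h2 : ∀ σ, T σ → @Sentence.Realize latLang Idl (idealLattice G0) σ) :
    ¬ ComputablePred (fun k : ℕ => ∃ σ : latLang.Sentence,
      encode (BoundedFormula.listEncode σ) = k ∧ T σ) := by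
  intro h
  have hp : Partrec fun n : ℕ => eval (Denumerable.ofNat Code n) 0 :=
    eval_part.comp (Computable.ofNat Code) (Computable.const 0)
  obtain ⟨c, hc⟩ := exists_code.1 (Partrec.nat_iff.1 hp)
  obtain ⟨σ, s1, s2, s3⟩ := exists_sentences c
  apply ComputablePred.halting_problem 0
  refine (ComputablePred.computable_of_manyOneReducible (ManyOneReducible.mk _
    (s1.to_comp.comp Computable.encode)) h).of_eq fun d => ?_
  have e : eval c (encode d) = eval d 0 := by rw [hc]; simp
  rw [← e]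
  constructor
  · rintro ⟨τ, e1, e2⟩
    have e3 := BoundedFormula.listEncode_sigma_injective
      (a₁ := ⟨0, τ⟩) (a₂ := ⟨0, σ (encode d)⟩) (encode_injective e1)
    obtain rfl : τ = σ (encode d) := by simpa using e3
    exact s3 _ (h2 _ e2)
  · intro hd
    exact ⟨_, rfl, h1 _ (s2 _ hd)⟩

end Pool.Agent.Lib.MP_411a76_lc
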