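import Pool.Agent.Lib.MP_411a76_lc.Main

/-!
The theory of the lattices of l-ideals is not an analytic (lightface) set: these lattices are complete,
so first-order quantifiers range over all sets of points and the interpreted numbers are standard.
-/

set_option autoImplicit false
open FirstOrder FirstOrder.Language Encodable
open Nat.Partrec (Code)
open Nat.Partrec.Code

namespace Pool.Agent.Lib.MP_411a76_lc

section Defs
variable {M : Type} (le : M → M → Prop) (o fi u v t z s f g l : M)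

/-- binary relations coded by sets of points -/
def AP (K x y : M) : Prop := ∃ w, Pr (AA le o fi u v t) f g w x y ∧ le w K

def Fn (s : M) : Prop := ∀ x y y', AA le o fi u v t s x y → AA le o fi u v t s x y' → le y y'

def Hyp : Prop :=
  Base (AA le o fi u v t) z s f g l ∧ Fn le o fi u v t s ∧ Fn le o fi u v t f ∧
  Fn le o fi u v t g ∧ (∀ x, ¬ AA le o fi u v t l x x) ∧
  (∀ x, Pt le fi v x → ∃ m, ¬ le x m ∧ ∀ y, Pt le fi v y → le y m ∨ (le x y ∧ le y x)) ∧
  ∀ K, le z K → (∀ x y, AA le o fi u v t s x y → le x K → le y K) → ∀ x, Pt le fi v x → le x K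

/-- the relation `eval c (pair x (pair b a))` halts, read in the structure -/
def Edge (r x b a : M) : Prop :=
  ∃ w w' y, Pr (AA le o fi u v t) f g w b a ∧ Pr (AA le o fi u v t) f g w' x w ∧
    AP le o fi u v t f g r w' y

def Wf (c : Code) (x : M) : Prop :=
  ∃ s' f' g' l' r, Base (AP le o fi u v t f g) z s' f' g' l' ∧
    Good (AP le o fi u v t f g) z s' f' g' c r ∧
    (∀ a b, AA le o fi u v t s a b → AP le o fi u v t f g s' a b) ∧
    ∀ K, (∃ a, Pt le fi v a ∧ le a K) → ∃ a, Pt le fi v a ∧ le a K ∧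
      ∀ b, le b K → ¬ Edge le o fi u v t f g r x b a

end Defs

theorem ud_AP (o fi u v t f g r x y : ℕ) :
    UD (fun _ le w => AP le (w o) (w fi) (w u) (w v) (w t) (w f) (w g) (w r) (w x) (w y)) := by
  unfold AP Pr
  repeat' first
    | exact ud_AA _ _ _ _ _ _ _ _
    | exact UD.le _ _
    | apply UD.and
    | apply UD.ex

theorem ud_baseP (o fi u v t f0 g0 z s f g l : ℕ) :
    UD (fun _ le w => Base (AP le (w o) (w fi) (w u) (w v) (w t) (w f0) (w g0))
      (w z) (w s) (w f) (w g) (w l)) := by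
  unfold Base Num Pr
  repeat' first
    | exact ud_AP _ _ _ _ _ _ _ _ _ _
    | apply UD.and
    | apply UD.imp
    | apply UD.all
    | apply UD.ex

theorem ud_goodP (c : Code) (o fi u v t f0 g0 z s f g r : ℕ) :
    UD (fun _ le w => Good (AP le (w o) (w fi) (w u) (w v) (w t) (w f0) (w g0))
      (w z) (w s) (w f) (w g) c (w r)) := by
  induction c generalizing o fi u v t f0 g0 z s f g r with
  | zero | succ | left | right =>
    simp only [Good, Num]
    repeat' first
      | exact ud_AP _ _ _ _ _ _ _ _ _ _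
      | apply UD.and
      | apply UD.imp
      | apply UD.all
      | apply UD.ex
  | pair c1 c2 ih1 ih2 | comp c1 c2 ih1 ih2 | prec c1 c2 ih1 ih2 =>
    simp only [Good, Pr]
    repeat' first
      | exact ud_AP _ _ _ _ _ _ _ _ _ _
      | exact ih1 _ _ _ _ _ _ _ _ _ _ _ _
      | exact ih2 _ _ _ _ _ _ _ _ _ _ _ _
      | apply UD.and
      | apply UD.imp
      | apply UD.all
      | apply UD.ex
  | rfind' c1 ih1 =>
    simp only [Good, Pr]
    repeat' first
      | exact ud_AP _ _ _ _ _ _ _ _ _ _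
      | exact ih1 _ _ _ _ _ _ _ _ _ _ _ _
      | apply UD.and
      | apply UD.imp
      | apply UD.all
      | apply UD.ex

theorem ud_pt (fi v x : ℕ) : UD (fun _ le w => Pt le (w fi) (w v) (w x)) := by
  unfold Pt
  repeat' first
    | exact UD.le _ _
    | apply UD.and
    | apply UD.or
    | apply UD.not
    | apply UD.imp
    | apply UD.all

theorem ud_hyp (o fi u v t z s f g l : ℕ) :
    UD (fun _ le w => Hyp le (w o) (w fi) (w u) (w v) (w t) (w z) (w s) (w f) (w g) (w l)) := by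
  unfold Hyp Fn
  repeat' first
    | exact ud_base _ _ _ _ _ _ _ _ _ _
    | exact ud_AA _ _ _ _ _ _ _ _
    | exact ud_pt _ _ _
    | exact UD.le _ _
    | apply UD.and
    | apply UD.or
    | apply UD.not
    | apply UD.imp
    | apply UD.all
    | apply UD.ex

theorem ud_wf (c : Code) (o fi u v t z s f g x : ℕ) :
    UD (fun _ le w => Wf le (w o) (w fi) (w u) (w v) (w t) (w z) (w s) (w f) (w g) c (w x)) := by
  unfold Wf Edge Pr
  repeat' first
    | exact ud_baseP _ _ _ _ _ _ _ _ _ _ _ _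
    | exact ud_goodP _ _ _ _ _ _ _ _ _ _ _ _ _
    | exact ud_AP _ _ _ _ _ _ _ _ _ _
    | exact ud_AA _ _ _ _ _ _ _ _
    | exact ud_pt _ _ _
    | exact UD.le _ _
    | apply UD.and
    | apply UD.not
    | apply UD.imp
    | apply UD.all
    | apply UD.ex

theorem wf_of_hyp {M : Type} {le : M → M → Prop} {o fi u v t z s f g l : M}
    (htr : ∀ x y w, le x y → le y w → le x w) (has : ∀ x y, le x y → le y x → x = y)
    (hsup : ∀ S : Set M, ∃ j, (∀ x ∈ S, le x j) ∧ ∀ m, (∀ x ∈ S, le x m) → le j m)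
    (h : Hyp le o fi u v t z s f g l) {ι : ℕ → M} (h0 : ι 0 = z)
    (hι : ∀ k, AA le o fi u v t s (ι k) (ι (k + 1))) (c : Code) (n : ℕ)
    (hn : WellFounded fun b a : ℕ => (eval c (Nat.pair n (Nat.pair b a))).Dom) :
    Wf le o fi u v t z s f g c (ι n) := by
  obtain ⟨hB, fs, ff, fg, hl, hsep, hind⟩ := h
  choose j hj1 hj2 using hsup
  have hj : ∀ S : Set M, (∀ y ∈ S, Pt le fi v y) → ∀ x, Pt le fi v x → le x (j S) → x ∈ S := by
    intro S hS x hx hxj
    by_contra hxS
    obtain ⟨m, hm1, hm2⟩ := hsep x hx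
    refine hm1 (htr _ _ _ hxj (hj2 S m fun y hy => (hm2 y (hS y hy)).resolve_right fun e => ?_))
    exact hxS (has _ _ e.1 e.2 ▸ hy)
  have fn : ∀ {r : M}, Fn le o fi u v t r → ∀ {x y y' : M}, AA le o fi u v t r x y →
      AA le o fi u v t r x y' → y = y' :=
    fun hr _ _ _ h1 h2 => has _ _ (hr _ _ _ h1 h2) (hr _ _ _ h2 h1)
  have hinj : Function.Injective ι := by
    intro a b e
    rcases lt_trichotomy a b with hab | hab | hab
    · exact (hl _ (e ▸ lt_sound hB hι hab)).elim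
    · exact hab
    · exact (hl _ (e ▸ lt_sound hB hι hab)).elim
  have hpt : ∀ k, Pt le fi v (ι k) := fun k => (hι k).1
  have hsur : ∀ x, Pt le fi v x → ∃ k, ι k = x := by
    have hr : ∀ y ∈ Set.range ι, Pt le fi v y := by
      rintro _ ⟨k, rfl⟩
      exact hpt k
    intro x hx
    refine hj _ hr x hx (hind _ (hj1 (Set.range ι) _ ⟨0, h0⟩) (fun a b hab ha => ?_) x hx)
    obtain ⟨k, rfl⟩ := hj _ hr a hab.1 ha
    exact hj1 (Set.range ι) _ ⟨k + 1, fn fs (hι k) hab⟩
  let rl : (ℕ → ℕ → Prop) → M := fun R => j {w | ∃ a b, R a b ∧ w = ι (Nat.pair a b)}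
  have hA : ∀ R x y, AP le o fi u v t f g (rl R) x y ↔ ∃ a b, R a b ∧ x = ι a ∧ y = ι b := by
    intro R x y
    constructor
    · rintro ⟨w, ⟨h1, h2⟩, h3⟩
      obtain ⟨a, b, hab, rfl⟩ := hj _ (by
        rintro _ ⟨a, b, -, rfl⟩
        exact hpt _) w h1.1 h3
      have := pr_sound hB h0 hι a b
      exact ⟨a, b, hab, fn ff h1 this.1, fn fg h2 this.2⟩
    · rintro ⟨a, b, hab, rfl, rfl⟩
      exact ⟨_, pr_sound hB h0 hι a b, hj1 _ _ ⟨a, b, hab, rfl⟩⟩
  have hP : ∀ w a b, Pr (AA le o fi u v t) f g w (ι a) (ι b) → w = ι (Nat.pair a b) := by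
    intro w a b hw
    obtain ⟨k, rfl⟩ := hsur w hw.1.1
    have := pr_sound hB h0 hι k.unpair.1 k.unpair.2
    rw [Nat.pair_unpair] at this
    rw [hinj (fn ff hw.1 this.1), hinj (fn fg hw.2 this.2), Nat.pair_unpair]
  refine ⟨_, _, _, _, _, h0 ▸ base_complete hinj hA, h0 ▸ good_complete hinj hA c,
    fun a b hab => ?_, ?_⟩
  · obtain ⟨k, rfl⟩ := hsur a hab.1
    exact (hA _ _ _).2 ⟨k, k + 1, rfl, rfl, fn fs hab (hι k)⟩
  · rintro K ⟨x, hx, hxK⟩
    obtain ⟨k, rfl⟩ := hsur x hx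
    obtain ⟨a, ha, hmin⟩ := hn.has_min {a | le (ι a) K} ⟨k, hxK⟩
    refine ⟨ι a, hpt a, ha, ?_⟩
    rintro y hy ⟨w, w', y', e1, e2, e3⟩
    obtain ⟨b, rfl⟩ := hsur y e1.1.2.1
    obtain rfl := hP _ _ _ e1
    obtain rfl := hP _ _ _ e2
    obtain ⟨a', b', hab, e, -⟩ := (hA _ _ _).1 e3
    obtain rfl := hinj e
    exact hmin b hy (Part.dom_iff_mem.2 ⟨b', hab⟩)

theorem hyp_G0 : Hyp lei iO iF iU iV iT (pt 0) (rel fun a b => b = a + 1)
    (rel fun a b => b = a.unpair.1) (rel fun a b => b = a.unpair.2) (rel fun a b => a < b) := by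
  have fn : ∀ φ : ℕ → ℕ, Fn lei iO iF iU iV iT (rel fun a b => b = φ a) := by
    intro φ x y y' h1 h2
    obtain ⟨a, b, rfl, rfl, rfl⟩ := (AA_iff _ _ _).1 h1
    obtain ⟨a', b', rfl, e, rfl⟩ := (AA_iff _ _ _).1 h2
    obtain rfl := pt_inj e
    exact le_rfl
  refine ⟨base_complete pt_inj AA_iff, fn _, fn _, fn _, fun x hx => ?_, fun x hx => ?_,
    fun K h0 hK x hx => ?_⟩
  · obtain ⟨a, b, hab, rfl, e⟩ := (AA_iff _ _ _).1 hx
    exact hab.ne (pt_inj e)
  · obtain ⟨a, rfl⟩ := (pt_iff x).1 hx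
    refine ⟨van (fun _ _ => False) (fun _ => True) (fun j => j = a), fun h => ?_, fun y hy => ?_⟩
    · exact eC_not a 0 ((h (tail_le a 0 (eC_mem a 0))).2.2 a rfl)
    · obtain ⟨b, rfl⟩ := (pt_iff y).1 hy
      by_cases hab : a = b
      · subst hab
        exact Or.inr ⟨le_rfl, le_rfl⟩
      · exact Or.inl fun g hg => ⟨hg.1, hg.2.1, fun j hj => hg.2.2 j (hj ▸ hab)⟩
  · obtain ⟨a, rfl⟩ := (pt_iff x).1 hx
    clear hx
    induction a with
    | zero => exact h0
    | succ a ih => exact hK _ _ ((AA_iff _ _ _).2 ⟨a, a + 1, rfl, rfl, rfl⟩) ih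

theorem exists_set (S : Set ℕ) : ∃ K : Idl, ∀ a, lei (pt a) K ↔ a ∈ S := by
  refine ⟨van (fun _ _ => False) (fun _ => True) (fun j => j ∉ S), fun a => ⟨fun h => ?_,
    fun h g hg => ⟨hg.1, hg.2.1, fun j hj => hg.2.2 j (fun e => hj (e ▸ h))⟩⟩⟩
  by_contra ha
  exact eC_not a 0 ((h (tail_le a 0 (eC_mem a 0))).2.2 a ha)

theorem wf_G0 (c : Code) (n : ℕ)
    (h : Wf lei iO iF iU iV iT (pt 0) (rel fun a b => b = a + 1)
      (rel fun a b => b = a.unpair.1) (rel fun a b => b = a.unpair.2) c (pt n)) :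
    WellFounded fun b a : ℕ => (eval c (Nat.pair n (Nat.pair b a))).Dom := by
  have hs : ∀ k, AA lei iO iF iU iV iT (rel fun a b => b = a + 1) (pt k) (pt (k + 1)) :=
    fun k => (AA_iff (fun a b => b = a + 1) _ _).2 ⟨k, k + 1, rfl, rfl, rfl⟩
  obtain ⟨s', f', g', l', r, k1, k2, k3, k4⟩ := h
  rw [WellFounded.wellFounded_iff_has_min]
  rintro S ⟨k, hk⟩
  obtain ⟨K, hK⟩ := exists_set S
  obtain ⟨x, hx, hxK, hmin⟩ := k4 K ⟨pt k, (hs k).1, (hK k).2 hk⟩
  obtain ⟨a, rfl⟩ := (pt_iff x).1 hx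
  refine ⟨a, (hK a).1 hxK, fun b hb hd => hmin (pt b) ((hK b).2 hb) ?_⟩
  exact ⟨_, _, _, pr_sound hyp_G0.1 rfl hs b a, pr_sound hyp_G0.1 rfl hs n _,
    good_sound (ι := pt) k1 rfl (fun k => k3 _ _ (hs k)) c r k2 _ _ (Part.get_mem hd)⟩

theorem exists_sentences' (c : Code) : ∃ σ : ℕ → latLang.Sentence,
    (Primrec fun n => encode (BoundedFormula.listEncode (σ n))) ∧
    (∀ n, (WellFounded fun b a : ℕ => (eval c (Nat.pair n (Nat.pair b a))).Dom) →
      ∀ (G : Type) [Group G] [Lattice G],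
      @Sentence.Realize latLang {N : Subgroup G // IsLIdeal N} (idealLattice G) (σ n)) ∧
    (∀ n, @Sentence.Realize latLang Idl (idealLattice G0) (σ n) →
      WellFounded fun b a : ℕ => (eval c (Nat.pair n (Nat.pair b a))).Dom) := by
  obtain ⟨φB, hB⟩ := (ud_hyp 1 2 3 4 5 0 6 7 8 9).and ((UD.le 0 10).and (UD.le 10 0))
  obtain ⟨φA, hA⟩ := ud_AA 2 3 4 5 6 7 1 0
  obtain ⟨φH, hH⟩ := ud_wf c 1 2 3 4 5 10 6 7 8 0
  refine ⟨sent φB φA φH, primrec_sent φB φA φH, fun n hn G _ _ => ?_, fun n hn => ?_⟩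
  · let := idealLattice G
    have e : mle {N : Subgroup G // IsLIdeal N} = fun x y => x.1 ≤ y.1 := by
      funext x y
      exact propext (mle_idl G x y)
    rw [realize_sent]
    intro xs
    simp only [hB, hA, hH, cons, e]
    rintro ⟨h1, h2, h3⟩
    refine chain_sound h1.1.2.1 n _ h1.1.1 fun ι h0 hι => ?_
    have e2 : xs ⟨10, by omega⟩ = xs ⟨0, by omega⟩ := Subtype.ext (le_antisymm h2 h3)
    have h1' := h1
    change Hyp _ _ _ _ _ _ (xs ⟨10, by omega⟩) _ _ _ _ at h1'
    rw [e2] at h1' h0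
    refine wf_of_hyp (le := fun x y : {N : Subgroup G // IsLIdeal N} => x.1 ≤ y.1)
      (fun _ _ _ => le_trans)
      (fun _ _ a b => Subtype.ext (le_antisymm a b)) (fun S => ?_) h1' h0 hι c n hn
    exact ⟨⟨sInf {K | IsLIdeal K ∧ ∀ x ∈ S, x.1 ≤ K}, isLIdeal_sInf _ fun _ h => h.1⟩,
      fun x hx => le_sInf fun K hK => hK.2 x hx, fun m hm => sInf_le ⟨m.2, hm⟩⟩
  · let := idealLattice G0
    have e : mle Idl = lei := by
      funext x y
      exact propext (mle_idl G0 x y)
    rw [realize_sent] at hn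
    have h := hn ![pt 0, rel fun a b => a < b,
      rel fun a b => b = a.unpair.2, rel fun a b => b = a.unpair.1, rel fun a b => b = a + 1,
      iT, iV, iU, iF, iO, pt 0]
    simp only [hB, hA, hH, cons, e] at h
    have h2 := h ⟨hyp_G0, le_rfl, le_rfl⟩
    have hs : ∀ k, AA lei iO iF iU iV iT (rel fun a b => b = a + 1) (pt k) (pt (k + 1)) :=
      fun k => (AA_iff (fun a b => b = a + 1) _ _).2 ⟨k, k + 1, rfl, rfl, rfl⟩
    have k := chain_complete pt hs n 0 h2
    have e0 : pt (0 + n) = pt n := by rw [Nat.zero_add]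
    rw [e0] at k
    exact wf_G0 c n k

theorem not_sigma (T : latLang.Sentence → Prop)
    (h1 : ∀ σ : latLang.Sentence, (∀ (G : Type) [Group G] [Lattice G],
      @Sentence.Realize latLang {N : Subgroup G // IsLIdeal N} (idealLattice G) σ) → T σ)
    (h2 : ∀ σ, T σ → @Sentence.Realize latLang Idl (idealLattice G0) σ)
    (R : ℕ → ℕ → ℕ → Prop) (hR : REPred fun p : ℕ × ℕ × ℕ => R p.1 p.2.1 p.2.2) :
    ¬ ∀ k : ℕ, (∃ σ : latLang.Sentence, encode (BoundedFormula.listEncode σ) = k ∧ T σ) ↔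
      ∃ f : ℕ → ℕ, ∀ i, R k (f (i + 1)) (f i) := by
  intro h
  have hp : Partrec fun m : ℕ => eval (Denumerable.ofNat Code m.unpair.1) m :=
    eval_part.comp ((Computable.ofNat Code).comp
      (Computable.fst.comp Computable.unpair)) Computable.id
  obtain ⟨c, hc⟩ := exists_code.1 (Partrec.nat_iff.1 hp)
  obtain ⟨σ, s1, s2, s3⟩ := exists_sentences' c
  have hq : Computable fun m : ℕ => (encode (BoundedFormula.listEncode (σ m.unpair.1)),
      m.unpair.2.unpair.1, m.unpair.2.unpair.2) :=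
    (s1.to_comp.comp (Computable.fst.comp Computable.unpair)).pair
      (Computable.unpair.comp (Computable.snd.comp Computable.unpair))
  have hr : Partrec fun m : ℕ => (Part.assert
      (R (encode (BoundedFormula.listEncode (σ m.unpair.1))) m.unpair.2.unpair.1
        m.unpair.2.unpair.2) fun _ => Part.some ()).map fun _ => (0 : ℕ) :=
    (Partrec.comp hR hq).map (Computable.const 0).to₂
  obtain ⟨d, hd⟩ := exists_code.1 (Partrec.nat_iff.1 hr)
  have e : (fun b a : ℕ => (eval c (Nat.pair (encode d) (Nat.pair b a))).Dom)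
      = R (encode (BoundedFormula.listEncode (σ (encode d)))) := by
    funext b a
    rw [hc]
    simp [hd, Part.assert]
  have key : (∃ τ : latLang.Sentence, encode (BoundedFormula.listEncode τ)
      = encode (BoundedFormula.listEncode (σ (encode d))) ∧ T τ) ↔
      WellFounded (R (encode (BoundedFormula.listEncode (σ (encode d))))) := by
    rw [← e]
    constructor
    · rintro ⟨τ, e1, e2⟩
      have e3 := BoundedFormula.listEncode_sigma_injective
        (a₁ := ⟨0, τ⟩) (a₂ := ⟨0, σ (encode d)⟩) (encode_injective e1)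
      obtain rfl : τ = σ (encode d) := by simpa using e3
      exact s3 _ (h2 _ e2)
    · intro hd
      exact ⟨_, rfl, h1 _ (s2 _ hd)⟩
  rw [h, wellFounded_iff_isEmpty_descending_chain, isEmpty_subtype] at key
  simp only [← not_exists] at key
  exact iff_not_self key

end Pool.Agent.Lib.MP_411a76_lc
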