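import Pool.Agent.Lib.MP_411a76_lc.Defs

/-!
Raw formulas with de Bruijn indices over one binary relation, uniform definability, translation
into bounded formulas of the language of lattices, and the Goedel codes of the translations.
-/

set_option autoImplicit false
open FirstOrder FirstOrder.Language Encodable

namespace Pool.Agent.Lib.MP_411a76_lc

inductive Fm : Type
  | le : ℕ → ℕ → Fm
  | bot : Fm
  | imp : Fm → Fm → Fm
  | all : Fm → Fm

def cons {M : Type} (x : M) (v : ℕ → M) : ℕ → M
  | 0 => x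
  | i + 1 => v i

def Fm.Sat {M : Type} (le : M → M → Prop) : Fm → (ℕ → M) → Prop
  | .le i j, v => le (v i) (v j)
  | .bot, _ => False
  | .imp φ ψ, v => φ.Sat le v → ψ.Sat le v
  | .all φ, v => ∀ x, φ.Sat le (cons x v)

/-- uniformly definable -/
def UD (P : ∀ (M : Type), (M → M → Prop) → (ℕ → M) → Prop) : Prop :=
  ∃ φ : Fm, ∀ (M : Type) (le : M → M → Prop) (v : ℕ → M), φ.Sat le v ↔ P M le v

theorem UD.le (i j : ℕ) : UD (fun _ le v => le (v i) (v j)) := ⟨.le i j, fun _ _ _ => Iff.rfl⟩

theorem UD.imp {P Q : ∀ (M : Type), (M → M → Prop) → (ℕ → M) → Prop} (hP : UD P) (hQ : UD Q) :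
    UD (fun M le v => P M le v → Q M le v) := by
  obtain ⟨φ, hφ⟩ := hP
  obtain ⟨ψ, hψ⟩ := hQ
  exact ⟨.imp φ ψ, fun M le v => by simp only [Fm.Sat, hφ, hψ]⟩

theorem UD.not {P : ∀ (M : Type), (M → M → Prop) → (ℕ → M) → Prop} (hP : UD P) :
    UD (fun M le v => ¬ P M le v) := by
  obtain ⟨φ, hφ⟩ := hP
  exact ⟨.imp φ .bot, fun M le v => by simp only [Fm.Sat, hφ]⟩

theorem UD.congr {P Q : ∀ (M : Type), (M → M → Prop) → (ℕ → M) → Prop} (hP : UD P)
    (h : ∀ M le v, P M le v ↔ Q M le v) : UD Q := by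
  obtain ⟨φ, hφ⟩ := hP
  exact ⟨φ, fun M le v => (hφ M le v).trans (h M le v)⟩

theorem UD.and {P Q : ∀ (M : Type), (M → M → Prop) → (ℕ → M) → Prop} (hP : UD P) (hQ : UD Q) :
    UD (fun M le v => P M le v ∧ Q M le v) :=
  (hP.imp hQ.not).not.congr (fun _ _ _ => by tauto)

theorem UD.or {P Q : ∀ (M : Type), (M → M → Prop) → (ℕ → M) → Prop} (hP : UD P) (hQ : UD Q) :
    UD (fun M le v => P M le v ∨ Q M le v) :=
  (hP.not.imp hQ).congr (fun _ _ _ => by tauto)

theorem UD.all {Q : ∀ (M : Type), (M → M → Prop) → M → (ℕ → M) → Prop}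
    (h : UD (fun M le w => Q M le (w 0) (fun i => w (i + 1)))) :
    UD (fun M le v => ∀ x, Q M le x v) := by
  obtain ⟨φ, hφ⟩ := h
  exact ⟨.all φ, fun M le v => by simp only [Fm.Sat, hφ]; rfl⟩

theorem UD.ex {Q : ∀ (M : Type), (M → M → Prop) → M → (ℕ → M) → Prop}
    (h : UD (fun M le w => Q M le (w 0) (fun i => w (i + 1)))) :
    UD (fun M le v => ∃ x, Q M le x v) :=
  (UD.all (Q := fun M le x v => ¬ Q M le x v) h.not).not.congr (fun _ _ _ => by simp)

/-- the meet symbol -/
def meetSym : latLang.Functions 2 := ⟨0, by simp⟩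

def Fm.toBF : Fm → (d : ℕ) → (ℕ → Fin d) → latLang.BoundedFormula Empty d
  | .le i j, _, ρ => .equal (.func meetSym ![.var (.inr (ρ i)), .var (.inr (ρ j))])
      (.var (.inr (ρ i)))
  | .bot, _, _ => .falsum
  | .imp φ ψ, d, ρ => .imp (φ.toBF d ρ) (ψ.toBF d ρ)
  | .all φ, d, ρ => .all (φ.toBF (d + 1) (cons (Fin.last d) (fun i => (ρ i).castSucc)))

/-- the order defined from the meet -/
def mle (M : Type) [latLang.Structure M] (x y : M) : Prop :=
  Structure.funMap meetSym ![x, y] = x

theorem snoc_cons {M : Type} {d : ℕ} (xs : Fin d → M) (a : M) (ρ : ℕ → Fin d) :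
    (fun i => (Fin.snoc xs a : Fin (d + 1) → M) (cons (Fin.last d) (fun i => (ρ i).castSucc) i))
      = cons a (fun i => xs (ρ i)) := by
  funext i
  cases i <;> simp [cons]

theorem realize_toBF {M : Type} [latLang.Structure M] (φ : Fm) (d : ℕ) (ρ : ℕ → Fin d)
    (u : Empty → M) (xs : Fin d → M) :
    (φ.toBF d ρ).Realize u xs ↔ φ.Sat (mle M) (fun i => xs (ρ i)) := by
  induction φ generalizing d with
  | le i j =>
    simp only [Fm.toBF, Fm.Sat, mle, BoundedFormula.Realize, Term.realize, Sum.elim_inr]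
    have : (fun k => Term.realize (Sum.elim u xs)
        ((![.var (.inr (ρ i)), .var (.inr (ρ j))] : Fin 2 → latLang.Term (Empty ⊕ Fin d)) k)) =
        ![xs (ρ i), xs (ρ j)] := by
      funext k
      fin_cases k <;> rfl
    rw [this]
  | bot => rfl
  | imp φ ψ ih1 ih2 => simp only [Fm.toBF, Fm.Sat, BoundedFormula.Realize, ih1, ih2]
  | all φ ih =>
    simp only [Fm.toBF, Fm.Sat, BoundedFormula.Realize, ih]
    refine forall_congr' fun a => ?_
    rw [snoc_cons]

def Fm.code : Fm → ℕ → (ℕ → ℕ) → List ℕ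
  | .le i j, d, ρ =>
      [2 * Nat.pair d (encode [2 * Nat.pair 2 0 + 1, 2 * (2 * ρ i + 1), 2 * (2 * ρ j + 1)]),
       2 * Nat.pair d (encode [2 * (2 * ρ i + 1)])]
  | .bot, d, _ => [2 * (2 * (d + 2) + 1) + 1]
  | .imp φ ψ, d, ρ => 3 :: (φ.code d ρ ++ ψ.code d ρ)
  | .all φ, d, ρ => 7 :: φ.code (d + 1) (cons d ρ)

theorem encode_list_map {α : Type} [Encodable α] (l : List α) :
    encode l = encode (l.map encode) := by
  induction l with
  | nil => rfl
  | cons a l ih => simp [ih]

/-- the code of one symbol -/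
def sym (x : (Σ k, latLang.Term (Empty ⊕ Fin k)) ⊕ ((Σ n, latLang.Relations n) ⊕ ℕ)) : ℕ :=
  encode x

/-- the list of codes of a formula -/
def cd {d : ℕ} (φ : latLang.BoundedFormula Empty d) : List ℕ := φ.listEncode.map sym

theorem cd_imp {d : ℕ} (φ ψ : latLang.BoundedFormula Empty d) :
    cd (.imp φ ψ) = 3 :: (cd φ ++ cd ψ) := by
  simp only [cd, BoundedFormula.listEncode, List.map_cons, List.map_append, List.cons_append]
  rfl

theorem cd_all {d : ℕ} (φ : latLang.BoundedFormula Empty (d + 1)) :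
    cd (.all φ) = 7 :: cd φ := rfl

theorem code_toBF (φ : Fm) (d : ℕ) (ρ : ℕ → Fin d) :
    cd (φ.toBF d ρ) = φ.code d (fun i => (ρ i).val) := by
  induction φ generalizing d with
  | le i j => rfl
  | bot => rfl
  | imp φ ψ ih1 ih2 => rw [Fm.toBF, Fm.code, cd_imp, ih1, ih2]
  | all φ ih =>
    rw [Fm.toBF, Fm.code, cd_all, ih]
    have : (fun i => (cons (Fin.last d) (fun i => (ρ i).castSucc) i).val) =
        cons d (fun i => (ρ i).val) := by
      funext i
      cases i <;> simp [cons]
    rw [this]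

theorem primrec_code (φ : Fm) (D : ℕ → ℕ) (ρ : ℕ → ℕ → ℕ) (hD : Primrec D)
    (hρ : ∀ i, Primrec fun n => ρ n i) : Primrec fun n => φ.code (D n) (ρ n) := by
  have h2 : ∀ {f : ℕ → ℕ}, Primrec f → Primrec fun n => 2 * f n :=
    fun hf => Primrec.nat_mul.comp (Primrec.const 2) hf
  have h1 : ∀ {f : ℕ → ℕ}, Primrec f → Primrec fun n => f n + 1 :=
    fun hf => Primrec.succ.comp hf
  have hc : ∀ {f : ℕ → ℕ} {g : ℕ → List ℕ}, Primrec f → Primrec g → Primrec fun n => f n :: g n :=
    fun hf hg => Primrec.list_cons.comp hf hg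
  induction φ generalizing D ρ with
  | le i j =>
    simp only [Fm.code]
    refine hc (h2 (Primrec₂.natPair.comp hD (Primrec.encode.comp ?_)))
      (hc (h2 (Primrec₂.natPair.comp hD (Primrec.encode.comp ?_))) (Primrec.const []))
    · exact hc (Primrec.const _) (hc (h2 (h1 (h2 (hρ i)))) (hc (h2 (h1 (h2 (hρ j))))
        (Primrec.const [])))
    · exact hc (h2 (h1 (h2 (hρ i)))) (Primrec.const [])
  | bot =>
    simp only [Fm.code]
    exact hc (h1 (h2 (h1 (h2 (h1 (h1 hD)))))) (Primrec.const [])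
  | imp φ ψ ih1 ih2 =>
    simp only [Fm.code]
    exact hc (Primrec.const 3) (Primrec.list_append.comp (ih1 D ρ hD hρ) (ih2 D ρ hD hρ))
  | all φ ih =>
    simp only [Fm.code]
    refine hc (Primrec.const 7) (ih (fun n => D n + 1) (fun n => cons (D n) (ρ n)) (h1 hD) ?_)
    intro i
    cases i with
    | zero => exact hD
    | succ i => exact hρ i

/-- the chain of `n` successor steps followed by the final formula -/
def chainB (φA φH : Fm) : ℕ → (d : ℕ) → (ℕ → Fin d) → latLang.BoundedFormula Empty d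
  | 0, d, ρ => φH.toBF d ρ
  | n + 1, d, ρ => .all (.imp (φA.toBF (d + 1) (cons (Fin.last d) (fun i => (ρ i).castSucc)))
      (chainB φA φH n (d + 1) (cons (Fin.last d) (fun i => (ρ (i + 1)).castSucc))))

/-- semantic chain -/
def chainP {M : Type} (S : M → M → Prop) (H : M → Prop) : ℕ → M → Prop
  | 0, x => H x
  | n + 1, x => ∀ y, S x y → chainP S H n y

theorem realize_chainB {M : Type} [latLang.Structure M] (φA φH : Fm) (u : Empty → M)
    (w : ℕ → M) (n d : ℕ) (ρ : ℕ → Fin d) (xs : Fin d → M) (hw : ∀ i, xs (ρ (i + 1)) = w i) :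
    (chainB φA φH n d ρ).Realize u xs ↔
      chainP (fun x y => φA.Sat (mle M) (cons y (cons x w)))
        (fun x => φH.Sat (mle M) (cons x w)) n (xs (ρ 0)) := by
  have e : ∀ {d : ℕ} (ρ : ℕ → Fin d) (xs : Fin d → M), (∀ i, xs (ρ (i + 1)) = w i) →
      (fun i => xs (ρ i)) = cons (xs (ρ 0)) w := by
    intro d ρ xs hw
    funext i
    cases i <;> simp [cons, hw]
  induction n generalizing d with
  | zero => rw [chainB, chainP, realize_toBF, e ρ xs hw]
  | succ n ih =>
    simp only [chainB, chainP, BoundedFormula.Realize, realize_toBF]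
    refine forall_congr' fun a => ?_
    rw [snoc_cons, e ρ xs hw]
    refine imp_congr Iff.rfl ((ih _ _ _ ?_).trans ?_)
    · intro i
      simp [cons, hw]
    · simp [cons]

theorem code_chainB (φA φH : Fm) (r : ℕ → ℕ) (n d : ℕ) (ρ : ℕ → Fin d)
    (h0 : (ρ 0).val = d - 1) (hr : ∀ i, (ρ (i + 1)).val = r i) :
    cd (chainB φA φH n d ρ) =
      (List.range n).flatMap (fun k => 7 :: 3 :: φA.code (d + k + 1)
        (cons (d + k) (cons (d + k - 1) r))) ++ φH.code (d + n) (cons (d + n - 1) r) := by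
  have e : ∀ {d : ℕ} (ρ : ℕ → Fin d), (ρ 0).val = d - 1 → (∀ i, (ρ (i + 1)).val = r i) →
      (fun i => (ρ i).val) = cons (d - 1) r := by
    intro d ρ h0 hr
    funext i
    cases i <;> simp [cons, h0, hr]
  induction n generalizing d with
  | zero => simp [chainB, code_toBF, e ρ h0 hr]
  | succ n ih =>
    rw [chainB, cd_all, cd_imp, code_toBF]
    rw [ih (d + 1) _ (by simp [cons]) (by intro i; simp [cons, hr]), List.range_succ_eq_map,
      List.flatMap_cons, List.flatMap_map]
    have e2 : (fun i => (cons (Fin.last d) (fun i => (ρ i).castSucc) i).val) =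
        cons d (cons (d - 1) r) := by
      rw [← e ρ h0 hr]
      funext i
      cases i <;> simp [cons]
    rw [e2]
    simp only [Nat.add_zero, List.cons_append, List.append_assoc, Nat.succ_eq_add_one,
      Nat.add_assoc, Nat.add_comm 1]

theorem listEncode_alls {d : ℕ} (φ : latLang.BoundedFormula Empty d) :
    cd φ.alls = List.replicate d 7 ++ cd φ := by
  induction d with
  | zero => rfl
  | succ d ih =>
    rw [BoundedFormula.alls, ih, List.replicate_succ', List.append_assoc]
    rfl

/-- the sentence attached to the number `n` -/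
def sent (φB φA φH : Fm) (n : ℕ) : latLang.Sentence :=
  (BoundedFormula.imp (φB.toBF 11 (fun i => ⟨10 - i, by omega⟩))
    (chainB φA φH n 11 (fun i => ⟨10 - i, by omega⟩))).alls

theorem primrec_sent (φB φA φH : Fm) :
    Primrec fun n => encode (BoundedFormula.listEncode (sent φB φA φH n)) := by
  have e : ∀ n, encode (BoundedFormula.listEncode (sent φB φA φH n)) =
      encode (List.replicate 11 7 ++ 3 :: (φB.code 11 (fun i => 10 - i) ++
        ((List.range n).flatMap (fun k => 7 :: 3 :: φA.code (11 + k + 1)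
          (cons (11 + k) (cons (11 + k - 1) (fun i => 10 - (i + 1))))) ++
          φH.code (11 + n) (cons (11 + n - 1) (fun i => 10 - (i + 1)))))) := by
    intro n
    rw [encode_list_map]
    refine congrArg encode ?_
    refine (listEncode_alls _).trans ?_
    rw [cd_imp, code_toBF, code_chainB φA φH (fun i => 10 - (i + 1)) n 11 _ rfl (fun _ => rfl)]
  simp only [e]
  have h11 : Primrec fun n : ℕ => 11 + n := Primrec.nat_add.comp (Primrec.const 11) Primrec.id
  have h10 : Primrec fun n : ℕ => 11 + n - 1 := Primrec.nat_sub.comp h11 (Primrec.const 1)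
  refine Primrec.encode.comp (Primrec.list_append.comp (Primrec.const _)
    (Primrec.list_cons.comp (Primrec.const 3) (Primrec.list_append.comp (Primrec.const _)
      (Primrec.list_append.comp ?_ ?_))))
  · refine Primrec.list_flatMap Primrec.list_range ?_
    have : Primrec fun k : ℕ => 7 :: 3 :: φA.code (11 + k + 1)
        (cons (11 + k) (cons (11 + k - 1) (fun i => 10 - (i + 1)))) := by
      refine Primrec.list_cons.comp (Primrec.const 7) (Primrec.list_cons.comp (Primrec.const 3) ?_)
      refine primrec_code φA _ _ (Primrec.succ.comp h11) ?_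
      rintro (_ | _ | i)
      · exact h11
      · exact h10
      · exact Primrec.const _
    exact (this.comp Primrec.snd).to₂
  · refine primrec_code φH _ _ h11 ?_
    rintro (_ | i)
    · exact h10
    · exact Primrec.const _

theorem realize_sent {M : Type} [latLang.Structure M] (φB φA φH : Fm) (n : ℕ) :
    M ⊨ sent φB φA φH n ↔ ∀ xs : Fin 11 → M,
      φB.Sat (mle M) (fun i => xs ⟨10 - i, by omega⟩) →
      chainP (fun x y => φA.Sat (mle M) (cons y (cons x (fun i => xs ⟨10 - (i + 1), by omega⟩))))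
        (fun x => φH.Sat (mle M) (cons x (fun i => xs ⟨10 - (i + 1), by omega⟩))) n
        (xs ⟨10, by omega⟩) := by
  rw [Sentence.Realize, sent, BoundedFormula.realize_alls]
  refine forall_congr' fun xs => ?_
  simp only [BoundedFormula.Realize]
  rw [realize_toBF, realize_chainB φA φH _ (fun i => xs ⟨10 - (i + 1), by omega⟩) n 11 _ xs
    (fun _ => rfl)]

end Pool.Agent.Lib.MP_411a76_lc
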